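import Pool.Agent.Lib.MP_4fbe7c_an.FC.Iface

/-!
Project FC, module GFU: elementary facts on `Gf` and `Hf`.
-/

set_option autoImplicit false

open Set

namespace Pool.Agent.Lib.MP_4fbe7c_an.FC.H65

theorem hasDerivAt_of_le_ge {f : ℝ → ℝ} {f' a : ℝ} (h1 : HasDerivWithinAt f f' (Iic a) a)
    (h2 : HasDerivWithinAt f f' (Ici a) a) : HasDerivAt f f' a := by
  have h := h1.union h2
  rw [Iic_union_Ici] at h
  exact h.hasDerivAt Filter.univ_mem

theorem gform (p : ℝ) (hp : 0 < p) :
    HasDerivAt (fun p : ℝ => -Real.log p + 2 * p - p ^ 2 / 2 - 3 / 2) (-((1 - p) ^ 2 / p)) p := by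
  have h := ((((Real.hasDerivAt_log hp.ne').neg.add ((hasDerivAt_id p).const_mul 2)).sub
    (((hasDerivAt_id p).pow 2).div_const 2)).sub_const (3 / 2))
  refine h.congr_deriv ?_
  simp only [id]
  field_simp
  ring

theorem gf_deriv (p : ℝ) (hp : 0 < p) : HasDerivAt Gf (-((max (1 - p) 0) ^ 2 / p)) p := by
  rcases lt_trichotomy p 1 with h | h | h
  · have e : Gf =ᶠ[nhds p] fun p : ℝ => -Real.log p + 2 * p - p ^ 2 / 2 - 3 / 2 := by
      filter_upwards [eventually_le_nhds h] with r hr
      simp [Gf, hr]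
    rw [max_eq_left (by linarith)]
    exact (gform p hp).congr_of_eventuallyEq e
  · subst h
    have h0 : -((max (1 - (1 : ℝ)) 0) ^ 2 / 1) = 0 := by simp
    rw [h0]
    refine hasDerivAt_of_le_ge ?_ ?_
    · have h1 := (gform 1 one_pos).hasDerivWithinAt (s := Iic 1)
      have h2 : -((1 - (1 : ℝ)) ^ 2 / 1) = 0 := by simp
      rw [h2] at h1
      refine h1.congr ?_ ?_
      · intro r hr
        have : r ≤ 1 := hr
        simp [Gf, this]
      · simp [Gf]
    · have h1 : HasDerivWithinAt (fun _ : ℝ => (0 : ℝ)) 0 (Ici 1) 1 :=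
        hasDerivWithinAt_const _ _ _
      have hone : Gf 1 = 0 := by
        simp only [Gf, le_refl, if_true, Real.log_one]
        norm_num
      refine h1.congr ?_ hone
      intro r hr
      have hr' : (1 : ℝ) ≤ r := hr
      rcases hr'.eq_or_lt with h | h
      · rw [← h, hone]
      · simp [Gf, not_le.2 h]
  · have e : Gf =ᶠ[nhds p] fun _ => 0 := by
      filter_upwards [eventually_gt_nhds h] with r hr
      simp [Gf, not_le.2 hr]
    rw [max_eq_right (by linarith)]
    have h0 : -((0 : ℝ) ^ 2 / p) = 0 := by simp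
    rw [h0]
    exact (hasDerivAt_const p (0 : ℝ)).congr_of_eventuallyEq e

theorem gf_nonneg (p : ℝ) (hp : 0 < p) : 0 ≤ Gf p := by
  unfold Gf
  split_ifs with h
  · have hx : |1 - p| < 1 := by
      rw [abs_lt]
      constructor <;> linarith
    have hs := Real.hasSum_pow_div_log_of_abs_lt_one hx
    have h1 := sum_le_hasSum (Finset.range 2) (fun n _ => by
      have : 0 ≤ 1 - p := by linarith
      positivity) hs
    rw [Finset.sum_range_succ, Finset.sum_range_one] at h1
    norm_num at h1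
    nlinarith
  · exact le_refl _

theorem sq_deriv (p : ℝ) :
    HasDerivAt (fun r : ℝ => (max (1 - r) 0) ^ 2) (-(2 * max (1 - p) 0)) p := by
  have hf : ∀ p : ℝ, HasDerivAt (fun r : ℝ => (1 - r) ^ 2) (-(2 * (1 - p))) p := by
    intro p
    have h := ((hasDerivAt_const p (1 : ℝ)).sub (hasDerivAt_id p)).pow 2
    refine h.congr_deriv ?_
    simp
  rcases lt_trichotomy p 1 with h | h | h
  · have e : (fun r : ℝ => (max (1 - r) 0) ^ 2) =ᶠ[nhds p] fun r : ℝ => (1 - r) ^ 2 := by
      filter_upwards [eventually_le_nhds h] with r hr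
      rw [max_eq_left (by linarith)]
    rw [max_eq_left (by linarith)]
    exact (hf p).congr_of_eventuallyEq e
  · subst h
    have h0 : -(2 * max (1 - (1 : ℝ)) 0) = 0 := by simp
    rw [h0]
    refine hasDerivAt_of_le_ge ?_ ?_
    · have h1 := (hf 1).hasDerivWithinAt (s := Iic 1)
      have h2 : -(2 * (1 - (1 : ℝ))) = 0 := by simp
      rw [h2] at h1
      refine h1.congr ?_ ?_
      · intro r hr
        have : r ≤ 1 := hr
        rw [max_eq_left (by linarith)]
      · simp
    · have h1 : HasDerivWithinAt (fun _ : ℝ => (0 : ℝ)) 0 (Ici 1) 1 :=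
        hasDerivWithinAt_const _ _ _
      refine h1.congr ?_ ?_
      · intro r hr
        have hr' : (1 : ℝ) ≤ r := hr
        rw [max_eq_right (by linarith)]
        simp
      · simp
  · have e : (fun r : ℝ => (max (1 - r) 0) ^ 2) =ᶠ[nhds p] fun _ => (0 : ℝ) := by
      filter_upwards [eventually_gt_nhds h] with r hr
      rw [max_eq_right (by linarith)]
      simp
    rw [max_eq_right (by linarith), mul_zero, neg_zero]
    exact (hasDerivAt_const p (0 : ℝ)).congr_of_eventuallyEq e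

theorem gfu : GfuStatement := by
  refine ⟨gf_deriv, gf_nonneg, sq_deriv, ?_, ?_⟩
  · intro p₁ p₂ h1 h2
    unfold Hf
    rcases le_total p₁ 1 with h | h
    · rw [max_eq_left (by linarith)]
      have e : (p₁ + p₂ - 1) * (p₂ ^ 2 - (1 - p₁) ^ 2) = (p₁ + p₂ - 1) ^ 2 * (p₂ + (1 - p₁)) := by
        ring
      rw [e]
      have : 0 ≤ p₂ + (1 - p₁) := by linarith
      positivity
    · rw [max_eq_right (by linarith)]
      have : 0 ≤ p₁ + p₂ - 1 := by linarith
      have h3 : 0 ≤ p₂ ^ 2 - 0 ^ 2 := by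
        have := sq_nonneg p₂
        linarith
      exact mul_nonneg this h3
  · intro a p₁ p₂ ha h1 h2 h3
    unfold Hf
    rw [max_eq_left (by linarith)]
    have e : (p₁ + p₂ - 1) * (p₂ ^ 2 - (1 - p₁) ^ 2) = (1 - p₁ - p₂) ^ 2 * (p₂ + (1 - p₁)) := by
      ring
    rw [e]
    have h4 : a / 2 ≤ 1 - p₁ - p₂ := by linarith
    have h5 : a ≤ p₂ + (1 - p₁) := by linarith
    calc a ^ 3 / 4 = (a / 2) ^ 2 * a := by ring
      _ ≤ (1 - p₁ - p₂) ^ 2 * (p₂ + (1 - p₁)) := by gcongr

end Pool.Agent.Lib.MP_4fbe7c_an.FC.H65
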