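import Pool.Agent.Lib.MP_4fbe7c_an.FC.Iface

/-!
Project FC, module GTM: a good time.
-/

set_option autoImplicit false

open Set

namespace Pool.Agent.Lib.MP_4fbe7c_an.FC.H65

theorem gtm : GtmStatement := by
  intro F F' G T c C K hc hF hle hK ε T' hε
  by_contra hno
  push Not at hno
  have htend : Filter.Tendsto (fun t : ℝ => C * Real.exp (-(c * t))) Filter.atTop (nhds 0) := by
    have h1 : Filter.Tendsto (fun t : ℝ => c * t) Filter.atTop Filter.atTop :=
      Filter.tendsto_id.const_mul_atTop hc
    have h2 := Real.tendsto_exp_neg_atTop_nhds_zero.comp h1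
    have h3 := h2.const_mul C
    rw [mul_zero] at h3
    exact h3
  obtain ⟨T0, hT0⟩ := Filter.eventually_atTop.1 (htend.eventually (gt_mem_nhds (half_pos hε)))
  set S := max (max T T') T0 with hS
  have hST : T ≤ S := (le_max_left _ _).trans (le_max_left _ _)
  have hST' : T' ≤ S := (le_max_right _ _).trans (le_max_left _ _)
  have hST0 : T0 ≤ S := le_max_right _ _
  have hd : ∀ t, S ≤ t → F' t ≤ -(ε / 2) := by
    intro t ht
    have h1 := hle t (hST.trans ht)
    have h2 := hno t (hST'.trans ht) (hST.trans ht)
    have h3 := hT0 t (hST0.trans ht)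
    linarith
  have hanti : AntitoneOn (fun t => F t + ε / 2 * t) (Ici S) := by
    refine antitoneOn_of_hasDerivWithinAt_nonpos (f' := fun t => F' t + ε / 2) (convex_Ici S)
      ?_ ?_ ?_
    · intro t ht
      exact ((hF t (hST.trans ht)).continuousAt.add
        (continuousAt_const.mul continuousAt_id)).continuousWithinAt
    · intro t ht
      rw [interior_Ici] at ht
      have h1 := (hF t (hST.trans (le_of_lt ht))).add ((hasDerivAt_id t).const_mul (ε / 2))
      rw [mul_one] at h1
      exact h1.hasDerivWithinAt
    · intro t ht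
      rw [interior_Ici] at ht
      have := hd t (le_of_lt ht)
      linarith
  set t := S + 2 * (F S + K + 1) / ε with ht
  have hpos : 0 ≤ F S + K := by
    have := hK S hST
    linarith
  have hSt : S ≤ t := by
    have : 0 ≤ 2 * (F S + K + 1) / ε := by positivity
    linarith
  have h1 := hanti (mem_Ici.2 le_rfl) (mem_Ici.2 hSt) hSt
  have h2 := hK t (hST.trans hSt)
  have h3 : ε / 2 * t = ε / 2 * S + (F S + K + 1) := by
    rw [ht]
    field_simp
  simp only at h1
  linarith

end Pool.Agent.Lib.MP_4fbe7c_an.FC.H65
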